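import Mathlib
import Pool.Agent.Lib.MP_4ccb00_al.N.Final

/-!
Almost all groups of order `p ^ n` have a central elementary abelian Frattini subgroup (in
particular nilpotency class at most 2), as `n → ∞`, uniformly in the prime `p`.
-/

set_option autoImplicit false

namespace Pool.Agent.Results.MP_4ccb00_al.AlmostAllClassTwo

open scoped commutatorElement

/-- The `p`-th powers and the commutators of elements of `G` are central and have order dividing `p`
(for a finite `p`-group: the Frattini subgroup of `G` is central and elementary abelian). -/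
def PhiCentral (p : ℕ) (G : Type) [Group G] : Prop :=
  ∀ x y z : G, x ^ p * z = z * x ^ p ∧ (x ^ p) ^ p = 1 ∧ ⁅x, y⁆ * z = z * ⁅x, y⁆ ∧ ⁅x, y⁆ ^ p = 1

/-- The number of isomorphism classes of groups of order `N`. -/
noncomputable def numGroups (N : ℕ) : ℕ :=
  Nat.card (Quot (fun g h : Group (Fin N) =>
    Nonempty (@MulEquiv (Fin N) (Fin N)
      (@Semigroup.toMul _ (@Monoid.toSemigroup _ (@DivInvMonoid.toMonoid _ (@Group.toDivInvMonoid _ g))))
      (@Semigroup.toMul _ (@Monoid.toSemigroup _ (@DivInvMonoid.toMonoid _ (@Group.toDivInvMonoid _ h)))))))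

/-- The number of isomorphism classes of groups of order `p ^ n` which are not `PhiCentral`. -/
noncomputable def numBad (p n : ℕ) : ℕ :=
  Nat.card (Quot (fun g h : {g : Group (Fin (p ^ n)) // ¬ @PhiCentral p (Fin (p ^ n)) g} =>
    Nonempty (@MulEquiv (Fin (p ^ n)) (Fin (p ^ n))
      (@Semigroup.toMul _ (@Monoid.toSemigroup _ (@DivInvMonoid.toMonoid _ (@Group.toDivInvMonoid _ g.1))))
      (@Semigroup.toMul _ (@Monoid.toSemigroup _ (@DivInvMonoid.toMonoid _ (@Group.toDivInvMonoid _ h.1)))))))

/-- Uniformly in the prime `p`: for `n ≥ n₀` the proportion of the groups of order `p ^ n` whose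
Frattini subgroup is not central and elementary abelian is at most `p ^ (- ⌊n ^ 2 / 200⌋)`. -/
theorem result : ∃ n₀ : ℕ, ∀ n ≥ n₀, ∀ p : ℕ, p.Prime →
    numBad p n * p ^ (n ^ 2 / 200) ≤ numGroups (p ^ n) :=
  Pool.Agent.Lib.MP4ccb00.N.All.almost

end Pool.Agent.Results.MP_4ccb00_al.AlmostAllClassTwo
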