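import Mathlib
import Pool.Agent.Lib.MP_4ccb00_al.N.RGB

/-!
Almost all groups of order `p ^ n` are rigid, uniformly in the prime `p`: all their automorphisms act
trivially on `G / Phi (G)`, and the automorphism group has order `p ^ (d (n - d))`, where
`p ^ d = |G : Phi (G)|`; in particular it is a `p`-group.

Outline of the proof (see `Pool/Agent/Lib/MP_4ccb00_al`, files `N/RGA`, `N/RGB`). Almost all groups of
order `p ^ n` are quotients `F / R` of the free group of rank `d` with `Psi ≤ R ≤ Phi`, where `Phi` is the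
`p`-Frattini subgroup of `F` and `Psi = [Phi, F] Phi ^ p` (`AlmostAllClassTwo`), with `d` near `2 n / 3`. The
image of `Aut (F / R)` in `GL_d (p)` is the stabiliser of the subspace `R / Psi` of `Phi / Psi`; a count of
the pairs (subspace, non-trivial element of the stabiliser) and Burnside's lemma show that almost all
orbits have trivial stabilisers. If the image is trivial then the automorphisms of `F / R` are exactly
the maps `x_i ↦ x_i z_i` with arbitrary `z_i ∈ Phi / R`.
-/

set_option autoImplicit false

namespace Pool.Agent.Results.MP_4ccb00_al.AlmostAllRigid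

open scoped commutatorElement

/-- The subgroup generated by the `p`-th powers and the commutators of the elements of `G` (for a finite
`p`-group: the Frattini subgroup). -/
def Frat (p : ℕ) (G : Type) [Group G] : Subgroup G :=
  Subgroup.closure {z | (∃ x : G, z = x ^ p) ∨ ∃ x y : G, z = ⁅x, y⁆}

/-- Every automorphism of `G` acts trivially on `G / Frat p G`, and there is a `d` with
`|3 d - 2 n| ≤ n / 100`, `|G : Frat p G| = p ^ d` and `|Aut G| = p ^ (d (n - d))`. -/
def Rigid (p n : ℕ) (G : Type) [Group G] : Prop :=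
  (∀ (α : MulAut G) (x : G), x⁻¹ * α x ∈ Frat p G) ∧
  ∃ d : ℕ, 199 * n ≤ 300 * d ∧ 300 * d ≤ 201 * n ∧ (Frat p G).index = p ^ d ∧
    Nat.card (MulAut G) = p ^ (d * (n - d))

/-- The number of isomorphism classes of groups of order `N`. -/
noncomputable def numGroups (N : ℕ) : ℕ :=
  Nat.card (Quot (fun g h : Group (Fin N) =>
    Nonempty (@MulEquiv (Fin N) (Fin N)
      (@Semigroup.toMul _ (@Monoid.toSemigroup _ (@DivInvMonoid.toMonoid _ (@Group.toDivInvMonoid _ g))))
      (@Semigroup.toMul _ (@Monoid.toSemigroup _ (@DivInvMonoid.toMonoid _ (@Group.toDivInvMonoid _ h)))))))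

/-- The number of isomorphism classes of groups of order `p ^ n` which are not rigid. -/
noncomputable def numFlexible (p n : ℕ) : ℕ :=
  Nat.card (Quot (fun g h : {g : Group (Fin (p ^ n)) // ¬ @Rigid p n (Fin (p ^ n)) g} =>
    Nonempty (@MulEquiv (Fin (p ^ n)) (Fin (p ^ n))
      (@Semigroup.toMul _ (@Monoid.toSemigroup _ (@DivInvMonoid.toMonoid _ (@Group.toDivInvMonoid _ g.1))))
      (@Semigroup.toMul _ (@Monoid.toSemigroup _ (@DivInvMonoid.toMonoid _ (@Group.toDivInvMonoid _ h.1)))))))

/-- Uniformly in the prime `p`: for `n ≥ n₀` the proportion of the groups of order `p ^ n` which are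
not rigid is at most `p ^ (- ⌊n ^ 2 / 250⌋)`. -/
theorem result : ∃ n₀ : ℕ, ∀ n ≥ n₀, ∀ p : ℕ, p.Prime →
    numFlexible p n * p ^ (n ^ 2 / 250) ≤ numGroups (p ^ n) :=
  Pool.Agent.Lib.MP4ccb00.RGBM.almost

end Pool.Agent.Results.MP_4ccb00_al.AlmostAllRigid
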