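import Mathlib
import Pool.Agent.Lib.MP_4ccb00_al.N.Final

/-!
An asymptotic formula for the number of groups of order `p ^ n`, uniform in the prime `p`, with
relative error at most `2 p ^ (- ⌊n ^ 2 / 200⌋)`.
-/

set_option autoImplicit false

namespace Pool.Agent.Results.MP_4ccb00_al.AsymptoticFormula

/-- The number of isomorphism classes of groups of order `p ^ n`. -/
noncomputable def f (n p : ℕ) : ℕ :=
  Nat.card (Quot (fun g h : Group (Fin (p ^ n)) =>
    Nonempty (@MulEquiv (Fin (p ^ n)) (Fin (p ^ n))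
      (@Semigroup.toMul _ (@Monoid.toSemigroup _ (@DivInvMonoid.toMonoid _ (@Group.toDivInvMonoid _ g))))
      (@Semigroup.toMul _ (@Monoid.toSemigroup _ (@DivInvMonoid.toMonoid _ (@Group.toDivInvMonoid _ h)))))))

/-- The number of `e`-dimensional subspaces of `(ZMod p) ^ m` (Gaussian binomial coefficient). -/
noncomputable def subspaces (p m e : ℕ) : ℕ :=
  Nat.card {W : Submodule (ZMod p) (Fin m → ZMod p) // Module.finrank (ZMod p) W = e}

/-- Uniformly in the prime `p`, for `n ≥ n₀`: the number of groups of order `p ^ n` is the sum over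
the `d ≤ n` with `199 n / 300 ≤ d ≤ 201 n / 300` of the number of `(n - d)`-dimensional subspaces of
a space of dimension `d (d + 1) / 2` over the field with `p` elements, divided by `|GL_d(p)|`, up to
a factor between `1` and `1 + 2 p ^ (- ⌊n ^ 2 / 200⌋)`. -/
theorem result : ∃ n₀ : ℕ, ∀ n ≥ n₀, ∀ p : ℕ, p.Prime →
    ∑ d ∈ (Finset.range (n + 1)).filter (fun d => 300 * d ≤ 201 * n ∧ 199 * n ≤ 300 * d),
      (subspaces p (d * (d + 1) / 2) (n - d) : ℝ) / (Nat.card (GL (Fin d) (ZMod p)) : ℝ) ≤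
      (f n p : ℝ) ∧
    (f n p : ℝ) ≤ (1 + 2 / (p : ℝ) ^ (n ^ 2 / 200)) *
      ∑ d ∈ (Finset.range (n + 1)).filter (fun d => 300 * d ≤ 201 * n ∧ 199 * n ≤ 300 * d),
        (subspaces p (d * (d + 1) / 2) (n - d) : ℝ) / (Nat.card (GL (Fin d) (ZMod p)) : ℝ) :=
  Pool.Agent.Lib.MP4ccb00.N.FinalM.asymptotic

end Pool.Agent.Results.MP_4ccb00_al.AsymptoticFormula
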