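import Mathlib
import Pool.Agent.Lib.MP_4ccb00_al.N.Final

/-!
For all sufficiently large `n` the number of groups of order `p ^ n` is strictly increasing in the
prime `p` (all primes, including 2), and the quotient of the numbers for `p < q` is more than
`(q / p) ^ ⌊n ^ 3 / 21⌋`.

Outline of the proof (see `Pool/Agent/Lib/MP_4ccb00_al`). Groups with `d` generators are described by
the normal subgroups `R` of index `p ^ n` of the free group of rank `d`, contained in its `p`-Frattini
subgroup. The groups with central elementary abelian Frattini subgroup correspond to subspaces; their
number is the mass `[d (d + 1) / 2 choose n - d]_p / |GL_d(p)|` up to a factor `1 + O(p ^ (- n ^ 2 / 20))`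
(Burnside's lemma and a count of the subspaces fixed by the elements of `GL_d(p)`). All other groups
are negligible, uniformly in `p`: (1) groups in which `[G, G]` is not the derived group of a subgroup
with few generators have at most `p ^ ((2 / 27 - c) n ^ 3)` isomorphism types (a refinement of the
argument of Sims: dimension counts for the dual of `R / [R, F] R ^ p` along chains of normal
subgroups, and a structure theorem for spaces of alternating maps of small generic rank); (2) the
remaining ones are counted by their restriction to such a subgroup. The masses are monotone in `p`.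
-/

set_option autoImplicit false

namespace Pool.Agent.Results.MP_4ccb00_al.EventuallyIncreasing

/-- The number of isomorphism classes of groups of order `p ^ n`: the number of isomorphism classes
of group structures on `Fin (p ^ n)` (the term of the frozen statement). -/
noncomputable def f (n p : ℕ) : ℕ :=
  Nat.card (Quot (fun g h : Group (Fin (p ^ n)) =>
    Nonempty (@MulEquiv (Fin (p ^ n)) (Fin (p ^ n))
      (@Semigroup.toMul _ (@Monoid.toSemigroup _ (@DivInvMonoid.toMonoid _ (@Group.toDivInvMonoid _ g))))
      (@Semigroup.toMul _ (@Monoid.toSemigroup _ (@DivInvMonoid.toMonoid _ (@Group.toDivInvMonoid _ h)))))))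

/-- For all sufficiently large `n`, the number of groups of order `p ^ n` is strictly increasing in
`p`, with `f (n, q) / f (n, p) > (q / p) ^ ⌊n ^ 3 / 21⌋` for all primes `p < q`. -/
theorem result : ∃ n₀ : ℕ, ∀ n ≥ n₀, ∀ p q : ℕ, p.Prime → q.Prime → p < q →
    f n p < f n q ∧ f n p * q ^ (n ^ 3 / 21) < f n q * p ^ (n ^ 3 / 21) :=
  Pool.Agent.Lib.MP4ccb00.N.FinalM.ratio

end Pool.Agent.Results.MP_4ccb00_al.EventuallyIncreasing
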